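import Pool.Agent.X312.CH.Gen

/-!
# A gap law for the cycles generated by Albanese kernels on `Y × X ^ n`

Let `X` and `Y` be smooth projective varieties over the field of algebraic numbers. Nothing is
assumed on `Y`. On `X` we assume that the numerically trivial self-correspondences of its powers
are nilpotent (by Kimura this holds if the Chow motive of `X` is finite-dimensional) and that
homological and numerical equivalence agree on its powers; both are known for products of curves
and for abelian varieties in characteristic zero. Let `ρ(Z)` be the rank of the cycles of all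
codimensions on `Z` modulo numerical equivalence, and `b` the sum of the Betti numbers of `X`. For
a variety `Z` let `A(Z)` be the subspace of `CH(Z)_ℚ` generated by the cycles `Γ_* a`, where `a`
is a zero-cycle in the Albanese kernel `F^2(S)` of any smooth projective variety `S` and `Γ` is
any correspondence from `S` to `Z`. The conjecture Q1 (for all varieties) says that `A(Z) = 0` for
all `Z`. For all `m ≥ 1`: `A(Y × X ^ m) = 0`, **in particular the Albanese map of** `Y × X ^ m`
**is injective, or**

`dim A(Y × X ^ n) ≥ (1 - 4 (m + 3) b ^ (m + 5) log (n + 1) / n) ρ(X ^ n)`

**for all** `n ≥ 1` (the left hand side may be infinite). For example let `X = C` be a curve and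
`Y = C'` another curve: one zero-cycle `x × y ≠ 0` on `C' × C`, with `x` and `y` of degree zero,
forces almost `ρ(C ^ n)` independent cycles on all the varieties `C' × C ^ n` which are generated
by Albanese kernels.

The Albanese kernel of `S` is described without the Albanese variety: it consists of the
zero-cycles (with rational coefficients) which are mapped to zero by all divisorial
correspondences from `S` to smooth projective varieties `T` (it suffices to take for `T` a point
and curves).

The proof. For `Z` a power of `X` let `N(Z)` be the space of the cycles in question on `Y × Z`;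
the correspondences between powers of `X` act on these spaces. Modulo numerical equivalence the
self-correspondences of `P = X ^ m` form a finite-dimensional algebra, and the numerically trivial
ones are nilpotent, so that idempotents can be lifted. If `N(P) ≠ 0`, one takes an idempotent
correspondence `g` on `P` of minimal rank with `g N(P) ≠ 0` and an element `z ≠ 0` of `g N(P)`.
The correspondences `x` with `x z = 0` have a nilpotent compression `g x g`, so the trace of `g x`
vanishes, and so `dim N(Z)` is at least the rank of the trace form `(u, v) ↦ tr (g v u)`; for `Z =
X ^ n` this rank is compared with `ρ(X ^ n)` by the log-convexity of the sequence of the ranks of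
the intersection forms and by the symmetric group.
-/

set_option autoImplicit false

open CategoryTheory AlgebraicGeometry

universe u v

namespace Pool.Agent.Results.MP_2eeeac_ag.AlbaneseKernelGap

open Pool.Agent.H914 VarClass Obj WeilCohomology
open Pool.Agent.W492.BB (TheoryData)
open Pool.Agent.X312.CH (CycleTheory HasIndep generated)
open Pool.Agent.Y133.Half (pw cycRank)

variable {k : Type u} [Field k] {𝒱 : VarClass k} {ops : CycleOps 𝒱}
  {W : WeilCohomology.{u, v} ops} {C : TheoryData.{u, 0, 0} 𝒱 ℚ}

/-- The sum of the Betti numbers of `X`. -/
noncomputable def totalBetti (W : WeilCohomology.{u, v} ops) (X : 𝒱.Obj) : ℕ :=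
  Module.finrank W.K (W.H X)

/-- The zero-cycle `a` on `S` lies in the Albanese kernel `F^2(S)` (with rational coefficients): it is
mapped to zero by all correspondences `Γ ∈ CH^1(S × T)`, `T` any variety. -/
def InAlbaneseKernel (C : TheoryData.{u, 0, 0} 𝒱 ℚ) (S : 𝒱.Obj) (a : C.A S) : Prop :=
  C.Deg S.dim a ∧ ∀ (T : 𝒱.Obj) (Γ : C.A (S.prod T)), C.Deg 1 Γ → C.act Γ a = 0

/-- **The gap law for Albanese kernels.** Here `pw X m` is the product of `m + 1` copies of `X`,
`generated C G Z` is the space of cycles on `Z` generated under correspondences by the cycles with the
property `G`, and `HasIndep S x` says that there are at least `x` linearly independent elements of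
`S`. -/
theorem result (𝓣 : CycleTheory W C) (X Y : 𝒱.Obj) (hX : ∀ n : ℕ, 𝓣.NumNil (pw X n))
    (hD : ∀ n : ℕ, HomEqNum W (pw X n)) (m : ℕ) :
    ((∀ a : C.A (Y.prod (pw X m)), InAlbaneseKernel C _ a → a = 0) ∧
      generated C (InAlbaneseKernel C) (Y.prod (pw X m)) = ⊥) ∨
    ∀ n : ℕ, HasIndep {a : C.A (Y.prod (pw X n)) | a ∈ generated C (InAlbaneseKernel C) _}
      ((1 - 4 * (m + 4) * (totalBetti W X : ℝ) ^ (m + 6) * Real.log (n + 2) / (n + 1)) *
        cycRank ops (pw X n)) := by
  have hI := 𝓣.isTheory
  rcases Pool.Agent.X312.CH.gen_law 𝓣 (InAlbaneseKernel C) X Y hX hD m with h | h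
  · refine Or.inl ⟨fun a ha => h a (Pool.Agent.X312.CH.mem_generated ha), ?_⟩
    rw [eq_bot_iff]
    exact fun a ha => (Submodule.mem_bot ℚ).2 (h a ha)
  · exact Or.inr h

end Pool.Agent.Results.MP_2eeeac_ag.AlbaneseKernelGap
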