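import Pool.Agent.X308.Z.Fin

/-!
# Injectivity of the Albanese maps and commuting correspondences

`𝒱` is a class of smooth projective geometrically irreducible varieties over the field `k` closed
under products (for the problem: all smooth projective varieties over the field of algebraic
numbers), `C` the Chow groups with rational coefficients (in the form of their formal properties,
`IsChowProj`), `H` a Weil cohomology theory (`IsWeilProj`). `AlbaneseFacts H` records four known
facts: homologically trivial divisors on `X × Y` are sums of pull-backs (with rational
coefficients); homologically trivial zero-cycles come from curves; zero-cycles in the Albanese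
kernel come from the Albanese kernels of surfaces (Bertini, Lefschetz); Murre's projector `π_2` of a
surface acts as the identity on the Albanese kernel.

Theorem. These are equivalent:
(1) for all `X` the Albanese map is injective on `CH_0(X)_0 ⊗ ℚ` (over the algebraic closure of `ℚ`
this is Q1, in view of Roitman's theorem);
(2) for all `X` the actions on `CH_0(X)_ℚ` of any two homologically trivial correspondences in
`CH^(dim X)(X × X)_ℚ` commute;
(3) the composition of any two homologically trivial correspondences
`X → Y → Z` in `CH^(dim Y)(X × Y)_ℚ`, `CH^(dim Z)(Y × Z)_ℚ` acts as zero on `CH_0(X)_ℚ`;
(4) `(Γ_*)^2 = 0` on `CH_0(X)_ℚ` for all homologically trivial `Γ` in `CH^(dim X)(X × X)_ℚ`;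
(5) there is a noncommutative polynomial `f`, with a monomial of degree two which has a nonzero
coefficient, such that for all `X` the identity `f = 0` holds for the actions on `CH_0(X)_ℚ` of the
homologically trivial `Γ` in `CH^(dim X)(X × X)_ℚ`.

Proof. A zero-cycle `y` in the Albanese kernel of a surface `S` is `π_2 g_* v` with a zero-cycle `v`
of degree zero on a curve `g : T → S`, and `π_2 g_*` may be replaced by a homologically trivial
correspondence from `T` to `S`; moreover `v` is the image of a point under the homologically trivial
correspondence `T × v`. Conversely the composition of two homologically trivial correspondences maps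
zero-cycles to the Albanese kernel, since homologically trivial divisors on products are sums of
pull-backs. For (5) ⇒ (3) one considers `X × Y × Z`, with maps from and to the factors which are
orthogonal on zero-cycles of degree zero.
-/

set_option autoImplicit false

universe u v w

namespace Pool.Agent.Results.MP_2eeeac_ag.CommutingCorrespondences

open Pool.Agent.H914 Pool.Agent.W492.BB Pool.Agent.TH133 Pool.Agent.X308.Z

/-- The Albanese maps of all varieties are injective (with rational coefficients) if and only if the
actions of the homologically trivial self-correspondences on the zero-cycles commute, for all
varieties, if and only if they satisfy some common polynomial identity in which a monomial of degree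
two occurs. -/
theorem result {k : Type u} [Field k] {𝒱 : VarClass k} (C : TheoryData.{u, v, 0} 𝒱 ℚ)
    [IsChowProj C] {K : Type w} [Field K] (H : WeilTheoryData.{u, v, w} C K) [IsWeilProj H]
    (hA : AlbaneseFacts H) :
    List.TFAE [AlbaneseInjective C, ActionsCommute H, CompositionsVanish H 2, PowersVanish H 2,
      ∃ (f : List ℕ →₀ ℚ) (w : List ℕ), w.length = 2 ∧ f w ≠ 0 ∧ SatisfyIdentity H f] :=
  albanese_iff hA

end Pool.Agent.Results.MP_2eeeac_ag.CommutingCorrespondences
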