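import Pool.Agent.X252.AK

/-!
# Albanese kernels of varieties with a finite group of automorphisms

Let the finite group `G` act on the smooth projective variety `X` over `ℚ̄`, and let `F^2(X)` be the
kernel of the Albanese map on zero-cycles, with rational coefficients (by the theorem of Roitman the
Albanese kernel vanishes if and only if it vanishes with rational coefficients): the zero-cycles
which are mapped to zero by all correspondences of codimension one. It is a rational representation
of `G`, and for a subgroup `H` of `G` its invariants are `F^2` of (a resolution of) the quotient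
`X / H`. Beilinson's conjecture says that `F^2(X) = 0`. We draw the consequences from the structure
of the two-sided ideals of the rational group ring.

* If every irreducible rational representation of `G` which occurs in `F^2(X)` and has a nonzero
  vector fixed by `H` has for some `j` a nonzero vector fixed by `D_j`, and `F^2(X / D_j) = 0` for
  all `j`, then `F^2(X / H) = 0`.
* If `c` is an involution in `G`, then `F^2(X) = 0` if and only if `F^2(X / c) = 0` and
  `F^2(X / [G, c]) = 0`; if `c` is contained in a nonabelian simple subgroup of `G`, if and only if
  `F^2(X / c) = 0`.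
* If a subgroup of `G` is partitioned into at least two subgroups `D_j`, then `F^2(X) = 0` if and
  only if `F^2(X / D_j) = 0` for all `j`.
* If `F^2(X) ≠ 0` but `F^2(X / P) = 0` for all subgroups `P` of prime order, then a fixed point free
  irreducible rational representation of `G` occurs in `F^2(X)` (and `G` is a Frobenius complement),
  the subgroups of order `p q` and the commutative subgroups of `G` are cyclic and `G` has at most one
  involution.
-/

set_option autoImplicit false

open CategoryTheory AlgebraicGeometry

universe u v

namespace Pool.Agent.Results.MP_2eeeac_ag.FiniteGroups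

open Pool.Agent.H914 Pool.Agent.W492.BB Pool.Agent.TH133 Pool.Agent.X252.GC Pool.Agent.X252.AK
  Pool.Agent.X310.Mu

/-- **Theorem.** The Albanese kernels of `X` and of the quotients of `X` by the subgroups of a finite
group of automorphisms. -/
theorem result {k : Type u} [Field k] {𝒱 : VarClass k} (C : TheoryData.{u, v, 0} 𝒱 ℚ)
    [IsChowProj C] (X : 𝒱.Obj) {G : Type} [Group G] [Fintype G] (ρ : G →* Aut X) :
    (∀ (H : Subgroup G) (ι : Type) (D : ι → Subgroup G), DominatedAlb C ρ H D →
      (∀ j, QuotAlbVanishes C ρ (D j)) → QuotAlbVanishes C ρ H) ∧
    (∀ c : G, c * c = 1 → (AlbVanishes C X ↔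
      QuotAlbVanishes C ρ (Subgroup.zpowers c) ∧ QuotAlbVanishes C ρ (comms c))) ∧
    (∀ c : G, InSimple c → c ≠ 1 → c * c = 1 →
      (AlbVanishes C X ↔ QuotAlbVanishes C ρ (Subgroup.zpowers c))) ∧
    (∀ (ι : Type) (D : ι → Subgroup G) (K : Subgroup G), Partitions K D →
      (AlbVanishes C X ↔ ∀ j, QuotAlbVanishes C ρ (D j))) ∧
    (¬ AlbVanishes C X → (∀ P : Subgroup G, (Nat.card P).Prime → QuotAlbVanishes C ρ P) →
      FreeInAlb C ρ ∧ CyclicSubgroups G) :=
  main' ρ

end Pool.Agent.Results.MP_2eeeac_ag.FiniteGroups
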